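import Pool.Agent.T3H86.WN.Wnu

/-!
# Hypergraphs which are unions of relations closed under weak near-unanimity operations (helper86)
-/

set_option autoImplicit false

open Finset

namespace Pool.Agent.T3H86.WN

open Pool.Agent.R181.Maj (edge SpanMore edge_injective union_eq amgm MajorityPiece IsMaj)

/-- `F` is a relation between three pairwise disjoint sets of vertices, closed under the componentwise
application of some weak near-unanimity operations `w i` on these sets, with the same number `k ≥ 2` of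
arguments. -/
def WnuPiece {V : Type} (F : Set (Finset V)) : Prop :=
  ∃ (k : ℕ) (X : Fin 3 → Type) (w : ∀ i, (Fin k → X i) → X i) (f : (Σ i, X i) → V)
    (E : Set (∀ i, X i)), 2 ≤ k ∧ (∀ i, IsWnu (w i)) ∧ Function.Injective f ∧ Closed w E ∧
    F = edge f '' E

theorem piece_le {V : Type} [Fintype V] {s : ℕ} (hs2 : 2 ≤ s) {H : Set (Finset V)}
    (hH : SpanMore H s (s + 3)) {F : Set (Finset V)} (hF : WnuPiece F) (hFH : F ⊆ H) :
    27 * F.ncard ^ 2 ≤ (s - 1) ^ 4 * Fintype.card V ^ 3 := by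
  classical
  obtain ⟨k, X, w₀, f, E, hk, hw₀, hf, hE₀, rfl⟩ := hF
  have hfi : ∀ i, Function.Injective fun a : X i => f ⟨i, a⟩ := fun i a b hab =>
    eq_of_heq (Sigma.mk.inj (hf hab)).2
  haveI : ∀ i, Finite (X i) := fun i => Finite.of_injective _ (hfi i)
  letI : ∀ i, Fintype (X i) := fun i => Fintype.ofFinite (X i)
  obtain ⟨K, w, hsK, hK, hw, hE⟩ := large_arity hk hw₀ hE₀ s
  have hs : Sparse (c0 (X := X)) c1 c2 (E.toFinset : Set (∀ i, X i)) s := by
    intro T hT hTe
    rw [Set.coe_toFinset] at hT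
    have h1 := hH (T.image (edge f)) (by
      rw [coe_image]
      intro a ha
      obtain ⟨x, hx, rfl⟩ := ha
      exact hFH ⟨x, hT hx, rfl⟩)
      (by rw [card_image_of_injective _ (edge_injective hf), hTe])
    rw [union_eq hf, Fin.sum_univ_three] at h1
    exact h1
  have hE' : Closed w (E.toFinset : Set (∀ i, X i)) := by
    rw [Set.coe_toFinset]; exact hE
  have h := count hs fun y z => cn_le hw hE' hK (by omega) hs2 hs y z
  rw [← Set.ncard_eq_toFinset_card'] at h
  have h1 : (edge f '' E).ncard = E.ncard := Set.ncard_image_of_injective _ (edge_injective hf)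
  rw [h1]
  have h4 := amgm (univ : Finset (Fin 3)) univ_nonempty fun i => Fintype.card (X i)
  rw [card_univ, Fintype.card_fin] at h4
  have h5 : ∑ i, Fintype.card (X i) ≤ Fintype.card V := by
    rw [← Fintype.card_sigma]
    exact Fintype.card_le_of_injective f hf
  calc 27 * E.ncard ^ 2
      ≤ 27 * ((s - 1) ^ 2 * ((s - 1) * (s - 1)) * ∏ i, Fintype.card (X i)) :=
        Nat.mul_le_mul_left _ h
    _ = (s - 1) ^ 4 * (3 ^ 3 * ∏ i, Fintype.card (X i)) := by ring
    _ ≤ (s - 1) ^ 4 * (∑ i, Fintype.card (X i)) ^ 3 := Nat.mul_le_mul_left _ h4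
    _ ≤ _ := Nat.mul_le_mul_left _ (Nat.pow_le_pow_left h5 _)

theorem upper (s L : ℕ) (hs : 2 ≤ s) (V : Type) [Fintype V] (H : Set (Finset V))
    (F : Fin L → Set (Finset V)) (hF : ∀ i, WnuPiece (F i)) (hH : H = ⋃ i, F i)
    (hsp : SpanMore H s (s + 3)) :
    (H.ncard : ℝ) ≤ (s - 1) ^ 2 * L * ((Fintype.card V : ℝ) / 3) ^ (3 / 2 : ℝ) := by
  classical
  have hs1 : (0 : ℝ) ≤ (s : ℝ) - 1 := by
    have : (2 : ℝ) ≤ s := by exact_mod_cast hs
    linarith
  have h1 : ∀ i, ((F i).ncard : ℝ) ≤ (s - 1) ^ 2 * ((Fintype.card V : ℝ) / 3) ^ (3 / 2 : ℝ) := by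
    intro i
    have h2 := piece_le hs (H := H) hsp (hF i) (by rw [hH]; exact Set.subset_iUnion F i)
    refine le_of_pow_le_pow_left₀ (n := 2) (by norm_num) (by positivity) ?_
    have h3 : (((Fintype.card V : ℝ) / 3) ^ (3 / 2 : ℝ)) ^ 2 = ((Fintype.card V : ℝ) / 3) ^ 3 := by
      rw [← Real.rpow_natCast, ← Real.rpow_mul (by positivity)]
      norm_num
    rw [mul_pow, h3]
    have h4 : ((27 * (F i).ncard ^ 2 : ℕ) : ℝ) ≤
        (((s - 1) ^ 4 * Fintype.card V ^ 3 : ℕ) : ℝ) := by exact_mod_cast h2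
    rw [Nat.cast_mul, Nat.cast_mul, Nat.cast_pow, Nat.cast_pow, Nat.cast_pow,
      Nat.cast_sub (by omega)] at h4
    norm_num at h4
    rw [div_pow, ← pow_mul]
    norm_num
    linarith
  have h6 : H.ncard ≤ ∑ i : Fin L, (F i).ncard := by
    rw [hH]
    exact Set.ncard_iUnion_le_of_fintype F
  calc (H.ncard : ℝ) ≤ ((∑ i : Fin L, (F i).ncard : ℕ) : ℝ) := by exact_mod_cast h6
    _ = ∑ i : Fin L, ((F i).ncard : ℝ) := by push_cast; rfl
    _ ≤ ∑ _i : Fin L, (s - 1) ^ 2 * ((Fintype.card V : ℝ) / 3) ^ (3 / 2 : ℝ) :=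
        sum_le_sum fun i _ => h1 i
    _ = (s - 1) ^ 2 * L * ((Fintype.card V : ℝ) / 3) ^ (3 / 2 : ℝ) := by
        rw [sum_const, card_univ, Fintype.card_fin, nsmul_eq_mul]; ring

/-- majority operations are weak near-unanimity operations -/
theorem wnu_of_maj {A : Type} {μ : A → A → A → A} (h : IsMaj μ) :
    IsWnu (k := 3) fun v => μ (v 0) (v 1) (v 2) := by
  refine ⟨fun a => (h a a).1, fun a b i j => ?_⟩
  have key : ∀ i : Fin 3, (μ (if (0 : Fin 3) = i then b else a) (if (1 : Fin 3) = i then b else a)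
      (if (2 : Fin 3) = i then b else a)) = a := by
    intro i
    fin_cases i
    · simpa using (h a b).2.2
    · simpa using (h a b).2.1
    · simpa using (h a b).1
  show μ _ _ _ = μ _ _ _
  rw [key i, key j]

/-- commutative idempotent operations with two arguments are weak near-unanimity operations -/
theorem wnu_of_comm {A : Type} {m : A → A → A} (h1 : ∀ a, m a a = a) (h2 : ∀ a b, m a b = m b a) :
    IsWnu (k := 2) fun v => m (v 0) (v 1) := by
  refine ⟨h1, fun a b i j => ?_⟩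
  have key : ∀ i : Fin 2, m (if (0 : Fin 2) = i then b else a) (if (1 : Fin 2) = i then b else a) =
      m a b := by
    intro i
    fin_cases i
    · simpa using h2 b a
    · simp
  show m _ _ = m _ _
  rw [key i, key j]

theorem wnuPiece_of_majority {V : Type} {F : Set (Finset V)} (h : MajorityPiece 3 F) :
    WnuPiece F := by
  obtain ⟨X, μ, f, E, h1, h2, h3, h4⟩ := h
  refine ⟨3, X, fun i v => μ i (v 0) (v 1) (v 2), f, E, by norm_num, fun i => wnu_of_maj (h1 i), h2,
    fun x hx => ?_, h4⟩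
  exact h3 _ (hx 0) _ (hx 1) _ (hx 2)

end Pool.Agent.T3H86.WN
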