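import Mathlib

/-!
# Triples in a sparse system: how walks in the links of two vertices glue (helper86)

`A` is the type of the triples, `g0, g1, g2` are their three coordinates.  A system `E` is sparse if
any `s` of its members have more than `s + 3` coordinates together.  A walk alternates between members
with `g1 = yc` and members with `g1 = y'`, two consecutive members having a common coordinate `g0` or
`g2`, in turn.
-/

set_option autoImplicit false
set_option linter.unusedSectionVars false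

open Finset

namespace Pool.Agent.T3H86.WN

section gen

variable {A B0 B1 B2 : Type} [DecidableEq A] [DecidableEq B0] [DecidableEq B1] [DecidableEq B2]

/-- the number of the coordinates of the members of `T` -/
def nv (g0 : A → B0) (g1 : A → B1) (g2 : A → B2) (T : Finset A) : ℕ :=
  #(T.image g0) + #(T.image g1) + #(T.image g2)

theorem nv_swap (g0 : A → B0) (g1 : A → B1) (g2 : A → B2) (T : Finset A) :
    nv g2 g1 g0 T = nv g0 g1 g2 T := by
  unfold nv; omega

/-- any `s` members have more than `s + 3` coordinates -/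
def Sparse (g0 : A → B0) (g1 : A → B1) (g2 : A → B2) (E : Set A) (s : ℕ) : Prop :=
  ∀ T : Finset A, (T : Set A) ⊆ E → #T = s → s + 3 < nv g0 g1 g2 T

theorem Sparse.swap {g0 : A → B0} {g1 : A → B1} {g2 : A → B2} {E : Set A} {s : ℕ}
    (h : Sparse g0 g1 g2 E s) : Sparse g2 g1 g0 E s := by
  intro T hT hs
  rw [nv_swap]
  exact h T hT hs

theorem Sparse.ne {g0 : A → B0} {g1 : A → B1} {g2 : A → B2} {E : Set A} {s : ℕ}
    (h : Sparse g0 g1 g2 E s) {T : Finset A} (hT : (T : Set A) ⊆ E) (hn : nv g0 g1 g2 T ≤ #T + 3) :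
    #T ≠ s := by
  intro hs
  have := h T hT hs
  omega

theorem img_mem {B : Type} [DecidableEq B] (g : A → B) (T : Finset A) (e : A)
    (h : g e ∈ T.image g) : (insert e T).image g = T.image g := by
  rw [image_insert, insert_eq_of_mem h]

theorem img_le {B : Type} [DecidableEq B] (g : A → B) (T : Finset A) (e : A) :
    #((insert e T).image g) ≤ #(T.image g) + 1 := by
  rw [image_insert]
  exact card_insert_le _ _

/-- the state after a part of a walk, the last member being `e` with the far coordinate `g0` -/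
def St (g0 : A → B0) (g1 : A → B1) (g2 : A → B2) (E : Set A) (s : ℕ) (T₀ : Finset A)
    (I : Finset B1) (m : ℕ) (e : A) (T' : Finset A) : Prop :=
  T₀ ⊆ T' ∧ (T' : Set A) ⊆ E ∧ #T' < s ∧ T'.image g1 = I ∧ e ∈ T' ∧ #T₀ < #T' ∧
  (nv g0 g1 g2 T' ≤ #T' + 2 ∨ (nv g0 g1 g2 T' = #T' + 3 ∧ #T' = #T₀ + m ∧
    ∃ T'' : Finset A, T' = insert e T'' ∧ g0 e ∉ T''.image g0))

theorem step {g0 : A → B0} {g1 : A → B1} {g2 : A → B2} {E : Set A} {s : ℕ}
    (hs : Sparse g0 g1 g2 E s) {T₀ : Finset A} {I : Finset B1} {m : ℕ} {e : A} {T' : Finset A}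
    (h : St g0 g1 g2 E s T₀ I m e T') {e' : A} (he' : e' ∈ E) (h0 : g0 e' = g0 e)
    (h1 : g1 e' ∈ I) (h1' : g1 e' ≠ g1 e) :
    St g2 g1 g0 E s T₀ I (m + 1) e' (insert e' T') := by
  obtain ⟨hT₀, hE, hlt, hI, he, hcard, halt⟩ := h
  have hmem0 : g0 e' ∈ T'.image g0 := by
    rw [h0]; exact mem_image_of_mem _ he
  have hmem1 : g1 e' ∈ T'.image g1 := by rw [hI]; exact h1
  have hE' : ((insert e' T' : Finset A) : Set A) ⊆ E := by
    rw [coe_insert]
    exact Set.insert_subset he' hE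
  by_cases hmem : e' ∈ T'
  · rw [insert_eq_of_mem hmem]
    refine ⟨hT₀, hE, hlt, hI, hmem, hcard, ?_⟩
    rw [nv_swap]
    rcases halt with hle | ⟨-, -, T'', hT'', hfar⟩
    · exact Or.inl hle
    · exfalso
      rw [hT'', mem_insert] at hmem
      rcases hmem with rfl | hmem
      · exact h1' rfl
      · apply hfar
        rw [← h0]
        exact mem_image_of_mem _ hmem
  · have hc : #(insert e' T') = #T' + 1 := card_insert_of_notMem hmem
    have hn0 : #((insert e' T').image g0) = #(T'.image g0) := by rw [img_mem g0 T' e' hmem0]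
    have hn1 : #((insert e' T').image g1) = #(T'.image g1) := by rw [img_mem g1 T' e' hmem1]
    have hn2 := img_le g2 T' e'
    have hnv : nv g0 g1 g2 (insert e' T') ≤ nv g0 g1 g2 T' + 1 := by unfold nv; omega
    have hnv3 : nv g0 g1 g2 (insert e' T') ≤ #(insert e' T') + 3 := by
      rcases halt with hle | ⟨heq, -⟩ <;> omega
    have hne := hs.ne hE' hnv3
    refine ⟨hT₀.trans (subset_insert _ _), hE', by omega, ?_, mem_insert_self _ _, by omega, ?_⟩
    · rw [img_mem g1 T' e' hmem1, hI]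
    rw [nv_swap]
    rcases halt with hle | ⟨heq, hm, -⟩
    · left; omega
    · by_cases h2 : g2 e' ∈ T'.image g2
      · left
        have hn2' : #((insert e' T').image g2) = #(T'.image g2) := by rw [img_mem g2 T' e' h2]
        have : nv g0 g1 g2 (insert e' T') = nv g0 g1 g2 T' := by unfold nv; omega
        omega
      · right
        have hn2' : #((insert e' T').image g2) = #(T'.image g2) + 1 := by
          rw [image_insert, card_insert_of_notMem h2]
        have : nv g0 g1 g2 (insert e' T') = nv g0 g1 g2 T' + 1 := by unfold nv; omega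
        exact ⟨by omega, by omega, T', rfl, h2⟩

/-- a walk which alternates between the links of `yc` and `y'` -/
structure Walk (g0 : A → B0) (g1 : A → B1) (g2 : A → B2) (E : Set A) (K : ℕ) (yc y' : B1)
    (p q : ℕ → A) : Prop where
  hp : ∀ j, j < K → p j ∈ E
  hq : ∀ j, j < K → q j ∈ E
  p1 : ∀ j, j < K → g1 (p j) = yc
  q1 : ∀ j, j < K → g1 (q j) = y'
  pq : ∀ j, j < K → g2 (q j) = g2 (p j)
  qp : ∀ j, j + 1 < K → g0 (p (j + 1)) = g0 (q j)

theorem walk_new {g0 : A → B0} {g1 : A → B1} {g2 : A → B2} {E : Set A} {s K : ℕ}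
    (hs : Sparse g0 g1 g2 E s) (hK : 0 < K) (hsK : s ≤ 2 * K) {yc y' : B1} {p q : ℕ → A}
    (hw : Walk g0 g1 g2 E K yc y' p q) {T₀ : Finset A} (hT₀ : (T₀ : Set A) ⊆ E)
    (hp0 : p 0 ∈ T₀) (hn : nv g0 g1 g2 T₀ ≤ #T₀ + 2) (hlt : #T₀ < s) (hy' : y' ∉ T₀.image g1) :
    ∃ T' : Finset A, T₀ ⊆ T' ∧ (T' : Set A) ⊆ E ∧ #T' < s ∧
      T'.image g1 = insert y' (T₀.image g1) ∧ #T₀ < #T' ∧ nv g0 g1 g2 T' ≤ #T' + 2 := by
  have hyc : yc ∈ T₀.image g1 := by
    rw [← hw.p1 0 hK]; exact mem_image_of_mem _ hp0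
  have hne : yc ≠ y' := fun h => hy' (h ▸ hyc)
  -- the first step
  have base : ∃ T', St g0 g1 g2 E s T₀ (insert y' (T₀.image g1)) 1 (q 0) T' := by
    have hnot : q 0 ∉ T₀ := fun h => hy' (by
      rw [← hw.q1 0 hK]; exact mem_image_of_mem _ h)
    have hE' : ((insert (q 0) T₀ : Finset A) : Set A) ⊆ E := by
      rw [coe_insert]
      exact Set.insert_subset (hw.hq 0 hK) hT₀
    have hc : #(insert (q 0) T₀) = #T₀ + 1 := card_insert_of_notMem hnot
    have h2 : g2 (q 0) ∈ T₀.image g2 := by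
      rw [hw.pq 0 hK]; exact mem_image_of_mem _ hp0
    have hn2 : #((insert (q 0) T₀).image g2) = #(T₀.image g2) := by rw [img_mem g2 T₀ _ h2]
    have hn1 : #((insert (q 0) T₀).image g1) = #(T₀.image g1) + 1 := by
      rw [image_insert, hw.q1 0 hK, card_insert_of_notMem hy']
    have hn0 := img_le g0 T₀ (q 0)
    have hnv : nv g0 g1 g2 (insert (q 0) T₀) ≤ #(insert (q 0) T₀) + 3 := by
      unfold nv at hn ⊢; omega
    have hne' := hs.ne hE' hnv
    refine ⟨insert (q 0) T₀, subset_insert _ _, hE', by omega, ?_, mem_insert_self _ _, by omega, ?_⟩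
    · rw [image_insert, hw.q1 0 hK]
    · by_cases h0 : g0 (q 0) ∈ T₀.image g0
      · left
        have hn0' : #((insert (q 0) T₀).image g0) = #(T₀.image g0) := by rw [img_mem g0 T₀ _ h0]
        unfold nv at hn ⊢; omega
      · by_cases heq : nv g0 g1 g2 (insert (q 0) T₀) = #(insert (q 0) T₀) + 3
        · right
          exact ⟨heq, by omega, T₀, rfl, h0⟩
        · left; omega
  have main : ∀ j, j < K →
      ∃ T', St g0 g1 g2 E s T₀ (insert y' (T₀.image g1)) (2 * j + 1) (q j) T' := by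
    intro j
    induction j with
    | zero => intro _; simpa using base
    | succ j ih =>
      intro hj
      obtain ⟨T', hT'⟩ := ih (by omega)
      have h1 := step hs hT' (hw.hp (j + 1) hj) (hw.qp j hj)
        (by rw [hw.p1 (j + 1) hj]; exact mem_insert_of_mem hyc)
        (by rw [hw.p1 (j + 1) hj, hw.q1 j (by omega)]; exact hne)
      have h2 := step hs.swap h1 (hw.hq (j + 1) hj) (hw.pq (j + 1) hj)
        (by rw [hw.q1 (j + 1) hj]; exact mem_insert_self _ _)
        (by rw [hw.p1 (j + 1) hj, hw.q1 (j + 1) hj]; exact hne.symm)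
      have e : 2 * (j + 1) + 1 = 2 * j + 1 + 1 + 1 := by ring
      rw [e]
      exact ⟨_, h2⟩
  obtain ⟨T', hT1, hT2, hT3, hT4, -, hT6, hT7⟩ := main (K - 1) (by omega)
  refine ⟨T', hT1, hT2, hT3, hT4, hT6, ?_⟩
  rcases hT7 with h | ⟨-, h, -⟩
  · exact h
  · exfalso
    have : 0 < #T₀ := card_pos.2 ⟨_, hp0⟩
    omega

/-- the labels of the walks which start with the same member, other than `yc` -/
theorem labels_le {g0 : A → B0} {g1 : A → B1} {g2 : A → B2} {E : Set A} {s K : ℕ}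
    (hs2 : 2 ≤ s) (hs : Sparse g0 g1 g2 E s) (hK : 0 < K) (hsK : s ≤ 2 * K) {yc : B1} {e₀ : A}
    (he₀ : e₀ ∈ E) (h1 : g1 e₀ = yc) (Λ : Finset B1) (hyc : yc ∉ Λ)
    (hw : ∀ y' ∈ Λ, ∃ p q : ℕ → A, p 0 = e₀ ∧ Walk g0 g1 g2 E K yc y' p q) :
    #Λ + 2 ≤ s := by
  have key : ∀ Λ' ⊆ Λ, ∃ T : Finset A, e₀ ∈ T ∧ (T : Set A) ⊆ E ∧ #T < s ∧
      T.image g1 = insert yc Λ' ∧ #Λ' + 1 ≤ #T ∧ nv g0 g1 g2 T ≤ #T + 2 := by
    intro Λ'
    induction Λ' using Finset.induction_on with
    | empty =>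
      intro _
      refine ⟨{e₀}, mem_singleton_self _, ?_, ?_, ?_, ?_, ?_⟩
      · rw [coe_singleton, Set.singleton_subset_iff]; exact he₀
      · rw [card_singleton]; omega
      · rw [image_singleton, h1]; rfl
      · simp
      · unfold nv
        simp
    | insert y' Λ' hy' ih =>
      intro hsub
      obtain ⟨T, hT1, hT2, hT3, hT4, hT5, hT6⟩ := ih ((subset_insert _ _).trans hsub)
      have hy'Λ : y' ∈ Λ := hsub (mem_insert_self _ _)
      obtain ⟨p, q, hp0, hwk⟩ := hw y' hy'Λ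
      have hnot : y' ∉ T.image g1 := by
        rw [hT4, mem_insert]
        rintro (h | h)
        · exact hyc (h ▸ hy'Λ)
        · exact hy' h
      obtain ⟨T', hT'1, hT'2, hT'3, hT'4, hT'5, hT'6⟩ :=
        walk_new hs hK hsK hwk hT2 (by rw [hp0]; exact hT1) hT6 hT3 hnot
      refine ⟨T', hT'1 hT1, hT'2, hT'3, ?_, ?_, hT'6⟩
      · rw [hT'4, hT4]; ext z; simp only [mem_insert]; tauto
      · rw [card_insert_of_notMem hy']; omega
  obtain ⟨T, -, -, hT3, -, hT5, -⟩ := key Λ subset_rfl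
  omega

/-- the state for walks with the same label -/
def Sl (g0 : A → B0) (g1 : A → B1) (g2 : A → B2) (E : Set A) (s : ℕ) (yc y' : B1)
    (T : Finset A) : Prop :=
  (T : Set A) ⊆ E ∧ T.image g1 ⊆ {yc, y'} ∧ #(T.image g0) + #(T.image g2) ≤ #T + 1 ∧ #T < s

theorem sl_step {g0 : A → B0} {g1 : A → B1} {g2 : A → B2} {E : Set A} {s : ℕ}
    (hs : Sparse g0 g1 g2 E s) {yc y' : B1} {T : Finset A} (h : Sl g0 g1 g2 E s yc y' T)
    {e' : A} (he' : e' ∈ E) (h1 : g1 e' ∈ ({yc, y'} : Finset B1))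
    (h0 : g0 e' ∈ T.image g0 ∨ g2 e' ∈ T.image g2) : Sl g0 g1 g2 E s yc y' (insert e' T) := by
  by_cases hmem : e' ∈ T
  · rw [insert_eq_of_mem hmem]; exact h
  obtain ⟨hE, hI, hc, hlt⟩ := h
  have hE' : ((insert e' T : Finset A) : Set A) ⊆ E := by
    rw [coe_insert]
    exact Set.insert_subset he' hE
  have hcard : #(insert e' T) = #T + 1 := card_insert_of_notMem hmem
  have hI' : (insert e' T).image g1 ⊆ {yc, y'} := by
    rw [image_insert]
    exact insert_subset h1 hI
  have hI2 : #((insert e' T).image g1) ≤ 2 := (card_le_card hI').trans (card_le_two)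
  have hc' : #((insert e' T).image g0) + #((insert e' T).image g2) ≤ #(insert e' T) + 1 := by
    have a0 := img_le g0 T e'
    have a2 := img_le g2 T e'
    rcases h0 with h0 | h0
    · rw [img_mem g0 T e' h0]; omega
    · rw [img_mem g2 T e' h0]; omega
  have hne := hs.ne hE' (by unfold nv; omega)
  exact ⟨hE', hI', hc', by omega⟩

theorem sl_walk {g0 : A → B0} {g1 : A → B1} {g2 : A → B2} {E : Set A} {s K : ℕ}
    (hs : Sparse g0 g1 g2 E s) {yc y' : B1} {p q : ℕ → A}
    (hw : Walk g0 g1 g2 E K yc y' p q) {T : Finset A} (h : Sl g0 g1 g2 E s yc y' T)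
    (hp0 : p 0 ∈ T) : ∀ j, j < K → ∃ T', T ⊆ T' ∧ Sl g0 g1 g2 E s yc y' T' ∧ q j ∈ T' := by
  intro j
  induction j with
  | zero =>
    intro hj
    refine ⟨insert (q 0) T, subset_insert _ _, sl_step hs h (hw.hq 0 hj) ?_ (Or.inr ?_),
      mem_insert_self _ _⟩
    · rw [hw.q1 0 hj]; simp
    · rw [hw.pq 0 hj]; exact mem_image_of_mem _ hp0
  | succ j ih =>
    intro hj
    obtain ⟨T', hT1, hT2, hT3⟩ := ih (by omega)
    have h1 := sl_step hs hT2 (hw.hp (j + 1) hj) (by rw [hw.p1 (j + 1) hj]; simp)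
      (Or.inl (by rw [hw.qp j hj]; exact mem_image_of_mem _ hT3))
    have h2 := sl_step hs h1 (hw.hq (j + 1) hj) (by rw [hw.q1 (j + 1) hj]; simp)
      (Or.inr (by rw [hw.pq (j + 1) hj]; exact mem_image_of_mem _ (mem_insert_self _ _)))
    exact ⟨_, hT1.trans ((subset_insert _ _).trans (subset_insert _ _)), h2, mem_insert_self _ _⟩

/-- the end points of the walks with the same first member and the same labels -/
theorem ends_le {g0 : A → B0} {g1 : A → B1} {g2 : A → B2} {E : Set A} {s K : ℕ}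
    (hs2 : 2 ≤ s) (hs : Sparse g0 g1 g2 E s) (hK : 0 < K) {yc y' : B1} {e₀ : A}
    (he₀ : e₀ ∈ E) (h1 : g1 e₀ = yc) (Q : Finset B0)
    (hw : ∀ a ∈ Q, ∃ p q : ℕ → A, p 0 = e₀ ∧ g0 (q (K - 1)) = a ∧ Walk g0 g1 g2 E K yc y' p q) :
    #Q + 1 ≤ s := by
  have key : ∀ Q' ⊆ Q, ∃ T : Finset A, e₀ ∈ T ∧ Sl g0 g1 g2 E s yc y' T ∧ Q' ⊆ T.image g0 := by
    intro Q'
    induction Q' using Finset.induction_on with
    | empty =>
      intro _
      refine ⟨{e₀}, mem_singleton_self _, ⟨?_, ?_, ?_, ?_⟩, empty_subset _⟩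
      · rw [coe_singleton, Set.singleton_subset_iff]; exact he₀
      · rw [image_singleton, h1]; simp
      · simp
      · rw [card_singleton]; omega
    | insert a Q' ha ih =>
      intro hsub
      obtain ⟨T, hT1, hT2, hT3⟩ := ih ((subset_insert _ _).trans hsub)
      obtain ⟨p, q, hp0, hqa, hwk⟩ := hw a (hsub (mem_insert_self _ _))
      obtain ⟨T', hT'1, hT'2, hT'3⟩ := sl_walk hs hwk hT2 (by rw [hp0]; exact hT1) (K - 1) (by omega)
      refine ⟨T', hT'1 hT1, hT'2, insert_subset ?_ (hT3.trans (image_subset_image hT'1))⟩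
      rw [← hqa]
      exact mem_image_of_mem _ hT'3
  obtain ⟨T, -, hT2, hT3⟩ := key Q subset_rfl
  have a1 := card_le_card hT3
  have a2 : #(T.image g0) ≤ #T := card_image_le
  have a3 := hT2.2.2.2
  omega

end gen

end Pool.Agent.T3H86.WN
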