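import Pool.Agent.T3H86.WN.Walk
import Pool.Agent.R181.MajPieces

/-!
# Triple systems closed under weak near-unanimity operations (helper86)
-/

set_option autoImplicit false
set_option linter.unusedSectionVars false

open Finset

namespace Pool.Agent.T3H86.WN

open Pool.Agent.R181.Maj (edge SpanMore edge_injective union_eq amgm MajorityPiece IsMaj)

/-- `w` is a weak near-unanimity operation with `k` arguments: it is idempotent, and if all the
arguments but one are equal, the value does not depend on the place of the exceptional argument -/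
def IsWnu {A : Type} {k : ℕ} (w : (Fin k → A) → A) : Prop :=
  (∀ a, w (fun _ => a) = a) ∧
    ∀ (a b : A) (i j : Fin k), w (fun t => if t = i then b else a) = w (fun t => if t = j then b else a)

/-- composition -/
def comp {A : Type} {k m : ℕ} (w : (Fin k → A) → A) (w' : (Fin m → A) → A) :
    (Fin (k * m) → A) → A := fun v => w fun i => w' fun j => v (finProdFinEquiv (i, j))

theorem comp_wnu {A : Type} {k m : ℕ} {w : (Fin k → A) → A} {w' : (Fin m → A) → A}
    (hw : IsWnu w) (hw' : IsWnu w') : IsWnu (comp w w') := by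
  refine ⟨fun a => ?_, fun a b i j => ?_⟩
  · unfold comp
    simp only [hw'.1, hw.1]
  · have key : ∀ t : Fin (k * m), comp w w' (fun u => if u = t then b else a) =
        w (fun r => if r = (finProdFinEquiv.symm t).1 then
          w' (fun u => if u = (finProdFinEquiv.symm t).2 then b else a) else a) := by
      intro t
      unfold comp
      congr 1
      funext r
      have e : ∀ u : Fin m, (finProdFinEquiv (r, u) = t) ↔
          (r = (finProdFinEquiv.symm t).1 ∧ u = (finProdFinEquiv.symm t).2) := by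
        intro u
        rw [← Equiv.eq_symm_apply, Prod.ext_iff]
      by_cases h : r = (finProdFinEquiv.symm t).1
      · rw [if_pos h]
        congr 1
        funext u
        dsimp only
        by_cases h2 : u = (finProdFinEquiv.symm t).2
        · rw [if_pos h2, if_pos ((e u).2 ⟨h, h2⟩)]
        · rw [if_neg h2, if_neg (fun h3 => h2 ((e u).1 h3).2)]
      · rw [if_neg h]
        have : (fun u : Fin m => if finProdFinEquiv (r, u) = t then b else a) = fun _ => a := by
          funext u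
          rw [if_neg (fun h3 => h ((e u).1 h3).1)]
        rw [this, hw'.1]
    rw [key i, key j, hw'.2 a b (finProdFinEquiv.symm i).2 (finProdFinEquiv.symm j).2]
    exact hw.2 _ _ _ _

section fam

variable {r : ℕ} {X : Fin r → Type}

/-- `E` is closed under the componentwise application of the `w i` -/
def Closed {k : ℕ} (w : ∀ i, (Fin k → X i) → X i) (E : Set (∀ i, X i)) : Prop :=
  ∀ x : Fin k → ∀ i, X i, (∀ t, x t ∈ E) → (fun i => w i fun t => x t i) ∈ E

theorem comp_closed {k m : ℕ} {w : ∀ i, (Fin k → X i) → X i} {w' : ∀ i, (Fin m → X i) → X i}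
    {E : Set (∀ i, X i)} (h : Closed w E) (h' : Closed w' E) :
    Closed (fun i => comp (w i) (w' i)) E := by
  intro x hx
  exact h (fun u => fun i => w' i fun t => x (finProdFinEquiv (u, t)) i)
    (fun u => h' (fun t => x (finProdFinEquiv (u, t))) fun t => hx _)

theorem large_arity {k : ℕ} (hk : 2 ≤ k) {w : ∀ i, (Fin k → X i) → X i} {E : Set (∀ i, X i)}
    (hw : ∀ i, IsWnu (w i)) (h : Closed w E) (N : ℕ) :
    ∃ (K : ℕ) (w' : ∀ i, (Fin K → X i) → X i), N ≤ K ∧ 0 < K ∧ (∀ i, IsWnu (w' i)) ∧ Closed w' E := by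
  induction N with
  | zero => exact ⟨k, w, Nat.zero_le _, by omega, hw, h⟩
  | succ N ih =>
    obtain ⟨K, w', h1, h2, h3, h4⟩ := ih
    refine ⟨k * K, fun i => comp (w i) (w' i), ?_, by positivity, fun i => comp_wnu (hw i) (h3 i),
      comp_closed h h4⟩
    nlinarith

end fam

section triples

variable {X : Fin 3 → Type} [∀ i, DecidableEq (X i)]

/-- the coordinates -/
def c0 (e : ∀ i, X i) : X 0 := e 0
def c1 (e : ∀ i, X i) : X 1 := e 1
def c2 (e : ∀ i, X i) : X 2 := e 2

/-- the componentwise operation -/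
def W {K : ℕ} (w : ∀ i, (Fin K → X i) → X i) (v : Fin K → ∀ i, X i) : ∀ i, X i :=
  fun i => w i fun t => v t i

/-- the even members of the walk -/
def pw {K : ℕ} (w : ∀ i, (Fin K → X i) → X i) (hb hb2 ha : ∀ i, X i) (j : ℕ) : ∀ i, X i :=
  W w fun t => if (t : ℕ) < j then ha else if (t : ℕ) = j then hb2 else hb

theorem walk_exists {K : ℕ} {w : ∀ i, (Fin K → X i) → X i} (hw : ∀ i, IsWnu (w i))
    {E : Set (∀ i, X i)} (hE : Closed w E) (hK : 0 < K) {hb hb2 ha ha2 : ∀ i, X i}
    (m1 : hb ∈ E) (m2 : hb2 ∈ E) (m3 : ha ∈ E) (m4 : ha2 ∈ E) (e1 : hb2 0 = hb 0)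
    (e2 : ha2 0 = ha 0) (e3 : ha 1 = hb 1) (e4 : ha2 2 = hb2 2) :
    Walk (c0 (X := X)) c1 c2 E K
      (w 1 fun t => if t = ⟨0, hK⟩ then hb2 1 else hb 1)
      (w 1 fun t => if t = ⟨0, hK⟩ then ha2 1 else hb 1)
      (pw w hb hb2 ha) (pw w hb ha2 ha) ∧ c0 (pw w hb ha2 ha (K - 1)) = ha 0 := by
  have hlab : ∀ (h2 : ∀ i, X i) (j : ℕ), j < K → c1 (pw w hb h2 ha j) =
      w 1 fun t => if t = ⟨0, hK⟩ then h2 1 else hb 1 := by
    intro h2 j hj
    rw [(hw 1).2 (hb 1) (h2 1) ⟨0, hK⟩ ⟨j, hj⟩]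
    unfold c1 pw W
    congr 1
    funext t
    dsimp only
    by_cases h : (t : ℕ) < j
    · rw [if_pos h, if_neg (fun h'' => by subst h''; exact absurd h (lt_irrefl _)), e3]
    · rw [if_neg h]
      by_cases h' : (t : ℕ) = j
      · rw [if_pos h', if_pos (Fin.ext h')]
      · rw [if_neg h', if_neg (by rw [Fin.ext_iff]; exact h')]
  have hmem : ∀ (h2 : ∀ i, X i), h2 ∈ E → ∀ j, pw w hb h2 ha j ∈ E := by
    intro h2 hh2 j
    apply hE
    intro t
    split_ifs
    · exact m3
    · exact hh2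
    · exact m1
  refine ⟨⟨fun j _ => hmem _ m2 j, fun j _ => hmem _ m4 j, fun j hj => hlab _ j hj,
    fun j hj => hlab _ j hj, fun j hj => ?_, fun j hj => ?_⟩, ?_⟩
  · unfold c2 pw W
    congr 1
    funext t
    dsimp only
    split_ifs
    · rfl
    · exact e4
    · rfl
  · unfold c0 pw W
    congr 1
    funext t
    dsimp only
    by_cases h : (t : ℕ) < j
    · rw [if_pos h, if_pos (by omega)]
    · rw [if_neg h]
      by_cases h' : (t : ℕ) = j
      · rw [if_pos h', if_pos (by omega), e2]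
      · rw [if_neg h', if_neg (by omega)]
        split_ifs
        · exact e1
        · rfl
  · unfold c0 pw W
    have : (fun t : Fin K => (if (t : ℕ) < K - 1 then ha else if (t : ℕ) = K - 1 then ha2 else hb) 0)
        = fun _ => ha 0 := by
      funext t
      have := t.2
      split_ifs
      · rfl
      · exact e2
      · omega
    rw [this]
    exact (hw 0).1 _

/-- the common neighbours of `y` and `z` -/
noncomputable def cn (E : Finset (∀ i, X i)) (y : X 1) (z : X 2) : Finset (X 0) := by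
  classical exact (E.image c0).filter fun a =>
    (∃ h ∈ E, h 0 = a ∧ h 1 = y) ∧ ∃ h ∈ E, h 0 = a ∧ h 2 = z

theorem mem_cn {E : Finset (∀ i, X i)} {y : X 1} {z : X 2} {a : X 0} :
    a ∈ cn E y z ↔ (∃ h ∈ E, h 0 = a ∧ h 1 = y) ∧ ∃ h ∈ E, h 0 = a ∧ h 2 = z := by
  classical
  unfold cn
  rw [mem_filter]
  constructor
  · rintro ⟨-, h⟩
    exact h
  · intro h
    refine ⟨?_, h⟩
    obtain ⟨⟨h', h1, h2, -⟩, -⟩ := h
    rw [mem_image]
    exact ⟨h', h1, h2⟩

theorem cn_le {K s : ℕ} {w : ∀ i, (Fin K → X i) → X i} (hw : ∀ i, IsWnu (w i))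
    {E : Finset (∀ i, X i)} (hE : Closed w (E : Set (∀ i, X i))) (hK : 0 < K) (hsK : s ≤ 2 * K)
    (hs2 : 2 ≤ s) (hs : Sparse (c0 (X := X)) c1 c2 (E : Set (∀ i, X i)) s) (y : X 1) (z : X 2) :
    #(cn E y z) ≤ (s - 1) * (s - 1) := by
  classical
  rcases (cn E y z).eq_empty_or_nonempty with h0 | ⟨b, hbm⟩
  · rw [h0, card_empty]; exact Nat.zero_le _
  obtain ⟨⟨hb, m1, e0, e1⟩, hb2, m2, e2, e3⟩ := mem_cn.1 hbm
  -- the data of a common neighbour
  have hdat : ∀ a : X 0, ∃ ha ha2 : ∀ i, X i, a ∈ cn E y z →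
      (ha ∈ E ∧ ha2 ∈ E ∧ ha 0 = a ∧ ha 1 = y ∧ ha2 0 = a ∧ ha2 2 = z) := by
    intro a
    by_cases ha : a ∈ cn E y z
    · obtain ⟨⟨h, n1, n2, n3⟩, h2, n4, n5, n6⟩ := mem_cn.1 ha
      exact ⟨h, h2, fun _ => ⟨n1, n4, n2, n3, n5, n6⟩⟩
    · exact ⟨hb, hb, fun h => absurd h ha⟩
  choose ha ha2 hha using hdat
  set yc : X 1 := w 1 fun t => if t = ⟨0, hK⟩ then hb2 1 else hb 1 with hyc
  set lab : X 0 → X 1 := fun a => w 1 fun t => if t = ⟨0, hK⟩ then (ha2 a) 1 else hb 1 with hlab
  set e₀ : ∀ i, X i := pw w hb hb2 hb 0 with he₀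
  have hp0 : ∀ a, pw w hb hb2 (ha a) 0 = e₀ := by
    intro a
    rw [he₀]
    unfold pw
    simp
  have hwalk : ∀ a ∈ cn E y z, ∃ p q : ℕ → ∀ i, X i, p 0 = e₀ ∧ c0 (q (K - 1)) = a ∧
      Walk (c0 (X := X)) c1 c2 (E : Set (∀ i, X i)) K yc (lab a) p q := by
    intro a ham
    obtain ⟨n1, n2, n3, n4, n5, n6⟩ := hha a ham
    obtain ⟨k1, k2⟩ := walk_exists hw hE hK (hb := hb) (hb2 := hb2) (ha := ha a) (ha2 := ha2 a)
      m1 m2 n1 n2 (by rw [e0, e2]) (by rw [n3, n5]) (by rw [n4, e1]) (by rw [n6, e3])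
    refine ⟨_, _, hp0 a, ?_, k1⟩
    rw [k2, n3]
  have he₀E : e₀ ∈ (E : Set (∀ i, X i)) := by
    obtain ⟨p, q, h1, -, h2⟩ := hwalk b hbm
    rw [← h1]
    exact h2.hp 0 hK
  have he₀1 : c1 e₀ = yc := by
    obtain ⟨p, q, h1, -, h2⟩ := hwalk b hbm
    rw [← h1]
    exact h2.p1 0 hK
  have hfib : ∀ l ∈ (cn E y z).image lab, #((cn E y z).filter fun a => lab a = l) ≤ s - 1 := by
    intro l _
    have := ends_le hs2 hs hK he₀E he₀1 ((cn E y z).filter fun a => lab a = l) (y' := l) (by
      intro a ham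
      rw [mem_filter] at ham
      obtain ⟨p, q, h1, h2, h3⟩ := hwalk a ham.1
      rw [ham.2] at h3
      exact ⟨p, q, h1, h2, h3⟩)
    omega
  have hlabs : #((cn E y z).image lab) ≤ s - 1 := by
    have h1 := labels_le hs2 hs hK hsK he₀E he₀1 (((cn E y z).image lab).erase yc)
      (notMem_erase _ _) (by
      intro l hl
      obtain ⟨-, hl⟩ := mem_erase.1 hl
      obtain ⟨a, ham, rfl⟩ := mem_image.1 hl
      obtain ⟨p, q, h1, -, h3⟩ := hwalk a ham
      exact ⟨p, q, h1, h3⟩)
    have h2 := Finset.pred_card_le_card_erase (s := (cn E y z).image lab) (a := yc)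
    omega
  calc #(cn E y z) ≤ (s - 1) * #((cn E y z).image lab) :=
        card_le_mul_card_image _ _ hfib
    _ ≤ (s - 1) * (s - 1) := Nat.mul_le_mul_left _ hlabs

/-- two coordinates have less than `s` completions -/
theorem codeg {A B0 B1 B2 : Type} [DecidableEq A] [DecidableEq B0] [DecidableEq B1] [DecidableEq B2]
    {g0 : A → B0} {g1 : A → B1} {g2 : A → B2} {E : Finset A} {s : ℕ}
    (hs : Sparse g0 g1 g2 (E : Set A) s) (x : B0) (y : B1) :
    #(E.filter fun h => g0 h = x ∧ g1 h = y) ≤ s - 1 := by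
  by_contra hcon
  push Not at hcon
  obtain ⟨T, hT, hTs⟩ := exists_subset_card_eq (s := E.filter fun h => g0 h = x ∧ g1 h = y)
    (n := s) (by omega)
  refine hs.ne (T := T) (fun h hh => ?_) ?_ hTs
  · exact (mem_filter.1 (hT hh)).1
  · have h0 : T.image g0 ⊆ {x} := by
      intro u hu
      obtain ⟨h, hh, rfl⟩ := mem_image.1 hu
      rw [mem_singleton]
      exact (mem_filter.1 (hT hh)).2.1
    have h1 : T.image g1 ⊆ {y} := by
      intro u hu
      obtain ⟨h, hh, rfl⟩ := mem_image.1 hu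
      rw [mem_singleton]
      exact (mem_filter.1 (hT hh)).2.2
    have a0 := card_le_card h0
    have a1 := card_le_card h1
    have a2 : #(T.image g2) ≤ #T := card_image_le
    rw [card_singleton] at a0 a1
    unfold nv
    omega

/-- double counting -/
theorem count {E : Finset (∀ i, X i)} {s M : ℕ} [∀ i, Fintype (X i)]
    (hs : Sparse (c0 (X := X)) c1 c2 (E : Set (∀ i, X i)) s)
    (hM : ∀ y z, #(cn E y z) ≤ M) :
    #E ^ 2 ≤ (s - 1) ^ 2 * M * ∏ i, Fintype.card (X i) := by
  classical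
  set D1 : X 0 → Finset (X 1) := fun x => (E.filter fun h => c0 h = x).image c1 with hD1
  set D2 : X 0 → Finset (X 2) := fun x => (E.filter fun h => c0 h = x).image c2 with hD2
  set N : X 0 → ℕ := fun x => #(E.filter fun h => c0 h = x) with hN
  have hE : #E = ∑ x : X 0, N x := card_eq_sum_card_fiberwise (fun _ _ => mem_univ _)
  have h1 : ∀ x, N x ≤ (s - 1) * #(D1 x) := by
    intro x
    apply card_le_mul_card_image
    intro y _
    rw [filter_filter]
    exact codeg hs x y
  have h2 : ∀ x, N x ≤ (s - 1) * #(D2 x) := by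
    intro x
    apply card_le_mul_card_image
    intro z _
    rw [filter_filter]
    have hs' : Sparse (c0 (X := X)) c2 c1 (E : Set (∀ i, X i)) s := by
      intro T hT hTs
      have := hs T hT hTs
      unfold nv at this ⊢
      omega
    exact codeg hs' x z
  have h3 : ∑ x : X 0, #(D1 x) * #(D2 x) ≤ M * (Fintype.card (X 1) * Fintype.card (X 2)) := by
    calc ∑ x : X 0, #(D1 x) * #(D2 x) = ∑ x : X 0, #(D1 x ×ˢ D2 x) := by
          simp only [card_product]
      _ = ∑ x : X 0, ∑ yz : X 1 × X 2, if yz ∈ D1 x ×ˢ D2 x then 1 else 0 := by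
          apply sum_congr rfl
          intro x _
          rw [sum_boole, filter_mem_eq_inter, univ_inter]
          rfl
      _ = ∑ yz : X 1 × X 2, ∑ x : X 0, if yz ∈ D1 x ×ˢ D2 x then 1 else 0 := sum_comm
      _ ≤ ∑ _yz : X 1 × X 2, M := by
          apply sum_le_sum
          intro yz _
          refine le_trans ?_ (hM yz.1 yz.2)
          rw [sum_boole]
          simp only [Nat.cast_id]
          apply card_le_card
          intro x hx
          rw [mem_filter, mem_product, mem_image, mem_image] at hx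
          obtain ⟨-, ⟨h, hh1, hh2⟩, h', hh3, hh4⟩ := hx
          rw [mem_filter] at hh1 hh3
          rw [mem_cn]
          exact ⟨⟨h, hh1.1, hh1.2, hh2⟩, h', hh3.1, hh3.2, hh4⟩
      _ = M * (Fintype.card (X 1) * Fintype.card (X 2)) := by
          rw [sum_const, card_univ, Fintype.card_prod, smul_eq_mul, mul_comm]
  calc #E ^ 2 = (∑ x : X 0, N x) ^ 2 := by rw [hE]
    _ ≤ #(univ : Finset (X 0)) * ∑ x : X 0, N x ^ 2 := sq_sum_le_card_mul_sum_sq
    _ ≤ #(univ : Finset (X 0)) * ∑ x : X 0, (s - 1) ^ 2 * (#(D1 x) * #(D2 x)) := by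
        apply Nat.mul_le_mul_left
        apply sum_le_sum
        intro x _
        calc N x ^ 2 = N x * N x := sq _
          _ ≤ ((s - 1) * #(D1 x)) * ((s - 1) * #(D2 x)) := Nat.mul_le_mul (h1 x) (h2 x)
          _ = (s - 1) ^ 2 * (#(D1 x) * #(D2 x)) := by ring
    _ = Fintype.card (X 0) * ((s - 1) ^ 2 * ∑ x : X 0, #(D1 x) * #(D2 x)) := by
        rw [← mul_sum, card_univ]
    _ ≤ Fintype.card (X 0) * ((s - 1) ^ 2 * (M * (Fintype.card (X 1) * Fintype.card (X 2)))) := by
        apply Nat.mul_le_mul_left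
        exact Nat.mul_le_mul_left _ h3
    _ = (s - 1) ^ 2 * M * ∏ i, Fintype.card (X i) := by
        rw [Fin.prod_univ_three]; ring

end triples

end Pool.Agent.T3H86.WN
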